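import Mathlib
import Pool.Agent.H63.CB.Main

set_option autoImplicit false

/-!
# MP_387a72_lc, Q1: positive answer

Convex bi-embeddability of countable linear orders is Borel reducible to isomorphism of countable
linear orders.  All definitions are in `Pool/Agent/H63/CB/Main.lean`.
-/

namespace Pool.Agent.Results.MP_387a72_lc.BorelReduction
open Pool.Agent.H63.CB

/-- **Positive answer to Q1.** There is a Borel map `h : LO → LO` such that two countable linear
orders are convexly bi-embeddable if and only if their images are isomorphic. -/
theorem result : ∃ h : LO → LO, IsBorelMap h ∧ ∀ x y, ConvBi x y ↔ Iso (h x) (h y) := main_one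

end Pool.Agent.Results.MP_387a72_lc.BorelReduction
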