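import Mathlib
import Pool.Agent.H63.CB.Main

set_option autoImplicit false

/-!
# MP_387a72_lc, Q2: positive answer

Convex bi-embeddability of countable linear orders is Borel reducible to the orbit equivalence
relation of a continuous action of a Polish group on a Polish space.  All definitions are in
`Pool/Agent/H63/CB/Main.lean`.
-/

namespace Pool.Agent.Results.MP_387a72_lc.OrbitReduction
open Pool.Agent.H63.CB

/-- **Positive answer to Q2.** There are a Polish group `G` acting continuously on a Polish space
`Y` and a Borel map `h : LO → Y` such that two countable linear orders are convexly bi-embeddable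
if and only if their images lie in the same orbit. -/
theorem result : ∃ (G Y : Type) (_ : Group G) (_ : TopologicalSpace G) (_ : IsTopologicalGroup G)
    (_ : PolishSpace G) (_ : TopologicalSpace Y) (_ : PolishSpace Y) (_ : MulAction G Y)
    (_ : ContinuousSMul G Y) (h : LO → Y),
    IsBorelMap h ∧ ∀ x y, ConvBi x y ↔ h x ∈ MulAction.orbit G (h y) := main_two

end Pool.Agent.Results.MP_387a72_lc.OrbitReduction
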